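import Pool.Agent.Results.MP_8865d3_nt.AllCovers
import Pool.Agent.V5helper64.NR.Metric

/-!
# Vojta's conjecture with multiplier ideals above the good approximations of almost every point

The starting file `AllCovers` shows Vojta's inequality, with truncated counting functions and with
arbitrary ideals, for ALL covers `X → (P¹)^m` over a number field `K` at once (all divisors above
hypersurfaces of total degree at most five, all ideals), at the closed points `P` of full degree above
all `x` in `K^m` outside ONE set `E` of density zero: the proportion of `E` among the points of height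
at most `B` is `O (exp (- √ log B))`. Nothing is said there about the points which are close to a given
point; they are few.

Let `H(x)` be the maximum of the heights (relative to `K`) of the coordinates of `x` in `K^m`.

**Theorem.** (1) Let `M` be any metric space, `φ : K^m → M` any map, `s > 0` and `c` real. For almost
every `ξ` in `M` with respect to the `s`-dimensional Hausdorff measure the inequality holds, with
constants which do not depend on `ξ`, `φ`, `s`, `c`, for all covers at once, at all points above ALL
`x` with `dist (ξ, φ(x)) ≤ c H(x) ^ (- 2 m / s)`, with the exception of finitely many `x`, the same for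
all covers.

(2) For almost every real number `ξ` the inequality holds, with constants which do not depend on `ξ`, for
all covers of the line over `ℚ` at once, at all points above all rational numbers `x = p / q` with
`|ξ - p / q| ≤ 1 / q²`, with finitely many exceptions, the same for all covers. In particular it holds
above all convergents of `ξ`, with finitely many exceptions.

For instance `φ` is the map `K^m → F^m` given by an embedding of `K` in a completion `F` of `K` at any
place, or the diagonal map to a product of such spaces for several places. If `F` is real and `s = m`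
this is about Lebesgue almost every `ξ` and the exponent `2`, the exponent of Dirichlet's theorem for
approximation in `K` at one place, for `m = 1`. If `s < m`, it is about almost every point of every subset of
finite `s`-dimensional measure, for example of a manifold or of a self-similar set, and the exponent is
the largest one for which the points `ξ` with infinitely many such approximations can have
positive `s`-dimensional measure (as they are covered by `B ^ (2 m)` balls of radius
`B ^ (- 2 m / s)`, for infinitely many `B = 2 ^ j`).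

Proof. The balls of radius `c H(x) ^ (- 2 m / s)` around the points `φ(x)`, `x ∈ E`, have a finite sum of
the `s`-th powers of the diameters, since those with `2 ^ j ≤ H(x) < 2 ^ (j + 1)` give at most
`C exp (- √(j log 2))`. So the points in infinitely many of them are a set of measure zero
(Borel-Cantelli for the Hausdorff measure).
-/

set_option autoImplicit false

namespace Pool.Agent.Results.MP_8865d3_nt.BestApproximations

open NumberField IsDedekindDomain MeasureTheory Filter Topology
open Pool.Agent.Results.MP_8865d3_nt.AllCovers (SheetsLE totalDegree degree proximity idealHeight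
  logDisc truncated)

/-- Vojta's inequality with multiplier ideals and truncated counting functions for ALL covers of the
products of lines at once at the points above the elements `x` of the set `X ⊆ K^m`: for every normal
domain `A`, finite over `K[x_1, …, x_m]` and containing it, of rank `N`, for different irreducible
polynomials `F_1, …, F_r` of total degree at most five, finite subsets `Y_j` of `A` and `s_j ≤ N` such
that the union of the prime divisors above `F_j = 0` on which not all elements of `Y_j` vanish has
degree at most `s_j` over `F_j = 0`, for every `G ≠ 0` of degrees at most `d_i`, all finite families of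
pairs `(F'_l, G'_l)` of polynomials without common factors, all finite sets `S` of primes, `Λ ≥ 0` and
`ε > 0` there is `C` such that for all `x ∈ X` with `G(x) ≠ 0`, `F_j(x) ≠ 0`, and all closed points `P` of
degree `N` above `x`
`∑ (deg_i - ε) h(x_i) + m_S(G, x) + Λ ∑ h_{(F'_l, G'_l)}(x) ≤ N_S^(1)(D, P) + d(L) + C`,
`deg_i = ∑_j (1 - s_j / N) deg_{x_i} F_j`. See the file `AllCovers`. -/
def Inequality (K : Type) [Field K] [NumberField K] (m : ℕ) (X : Set (Fin m → K)) : Prop :=
  ∀ (A : Type) [CommRing A] [IsDomain A] [IsIntegrallyClosed A]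
    [Algebra (MvPolynomial (Fin m) K) A] [FaithfulSMul (MvPolynomial (Fin m) K) A]
    [Module.Finite (MvPolynomial (Fin m) K) A]
    (r : ℕ) (F : Fin r → MvPolynomial (Fin m) K) (Y : Fin r → Finset A) (s : Fin r → ℕ),
    (∀ j, Irreducible (F j)) → (∀ i j, i ≠ j → ¬ Associated (F i) (F j)) →
    (∀ j, totalDegree (F j) ≤ 5) → (∀ j, SheetsLE A (F j) (Y j) (s j)) →
    (∀ j, s j ≤ Module.finrank (MvPolynomial (Fin m) K) A) →
    ∀ (d : Fin m → ℕ) (G : MvPolynomial (Fin m) K) (t : ℕ)
    (F' G' : Fin t → MvPolynomial (Fin m) K), G ≠ 0 → (∀ i, G.degreeOf i ≤ d i) →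
    (∀ l, IsRelPrime (F' l) (G' l)) →
    ∀ (S : Finset (HeightOneSpectrum (𝓞 K))) (Λ ε : ℝ), 0 ≤ Λ → 0 < ε →
    ∃ C : ℝ, ∀ x ∈ X, (∀ j, MvPolynomial.eval x (F j) ≠ 0) → MvPolynomial.eval x G ≠ 0 →
      ∀ (L : Type) [Field L] [NumberField L] [Algebra K L] (φ : A →+* L),
        Function.Surjective φ →
        Module.finrank K L = Module.finrank (MvPolynomial (Fin m) K) A →
        (∀ f : MvPolynomial (Fin m) K, φ (algebraMap (MvPolynomial (Fin m) K) A f) =
          algebraMap K L (MvPolynomial.eval x f)) →
        ∑ i, (degree (Module.finrank (MvPolynomial (Fin m) K) A) F s i - ε) *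
            Height.logHeight₁ (x i) + proximity S d G x + Λ * ∑ l, idealHeight (F' l) (G' l) x ≤
          truncated S F Y x φ + logDisc K L + C

/-- `H(x)`: the largest height (relative to `K`) of the coordinates of `x` -/
noncomputable def height {K : Type} [Field K] [NumberField K] {m : ℕ} (x : Fin m → K) : ℝ :=
  ⨆ i, Height.mulHeight₁ (x i)

theorem le_height {K : Type} [Field K] [NumberField K] {m : ℕ} (x : Fin m → K) (i : Fin m) :
    Height.mulHeight₁ (x i) ≤ height x :=
  le_ciSup (f := fun i => Height.mulHeight₁ (x i)) (Set.finite_range _).bddAbove i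

theorem height_le {K : Type} [Field K] [NumberField K] {m : ℕ} (hm : 0 < m) {x : Fin m → K} {B : ℝ} :
    height x ≤ B ↔ ∀ i, Height.mulHeight₁ (x i) ≤ B := by
  have : Nonempty (Fin m) := ⟨⟨0, hm⟩⟩
  exact ciSup_le_iff (Set.finite_range _).bddAbove

theorem result :
    (∀ (K : Type) [Field K] [NumberField K] (m : ℕ), 0 < m → ∃ E : Set (Fin m → K),
      Inequality K m Eᶜ ∧
      ∀ (M : Type) [MetricSpace M] [MeasurableSpace M] [BorelSpace M] (φ : (Fin m → K) → M)
        (s c : ℝ), 0 < s → ∀ᵐ ξ ∂(μH[s] : Measure M),
          {x | x ∈ E ∧ dist ξ (φ x) ≤ c * height x ^ (-(2 * m / s))}.Finite) ∧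
    ∃ E : Set (Fin 1 → ℚ), Inequality ℚ 1 Eᶜ ∧
      ∀ᵐ ξ : ℝ, {q : ℚ | (fun _ => q) ∈ E ∧ |ξ - q| ≤ 1 / (q.den : ℝ) ^ 2}.Finite := by
  have main : ∀ (K : Type) [Field K] [NumberField K] (m : ℕ), 0 < m → ∃ E : Set (Fin m → K),
      Inequality K m Eᶜ ∧
      ∀ (M : Type) [MetricSpace M] [MeasurableSpace M] [BorelSpace M] (φ : (Fin m → K) → M)
        (s c : ℝ), 0 < s → ∀ᵐ ξ ∂(μH[s] : Measure M),
          {x | x ∈ E ∧ dist ξ (φ x) ≤ c * height x ^ (-(2 * m / s))}.Finite := by
    intro K _ _ m hm
    obtain ⟨E, ⟨C, hC⟩, hE⟩ := AllCovers.result K m hm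
    refine ⟨E, fun A _ _ _ _ _ _ r F Y s h1 h2 h3 h4 h5 d G t F' G' h6 h7 h8 S Λ ε h9 h10 => ?_,
      fun M _ _ _ φ s c hs => ?_⟩
    · obtain ⟨C, hC⟩ := hE A r F Y s h1 h2 h3 h4 h5 d G t F' G' h6 h7 h8 S Λ ε h9 h10
      exact ⟨C, fun x hx => hC x hx⟩
    · rw [ae_iff]
      have h := Pool.Agent.V5helper64.NR.null_of_count (M := M) E height (fun x _ =>
        (Height.one_le_mulHeight₁ (x ⟨0, hm⟩)).trans (le_height x ⟨0, hm⟩)) (D := 2 * m) (C := C)
        (by positivity) (fun B hB => by
          have e1 : {x | x ∈ E ∧ height x ≤ B} = {x | x ∈ E ∧ ∀ i, Height.mulHeight₁ (x i) ≤ B} := by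
            ext x
            exact and_congr Iff.rfl (height_le hm)
          rw [e1]
          refine ⟨(hC B hB).1, (hC B hB).2.trans (le_of_eq ?_)⟩
          congr 2
          rw [← Real.rpow_natCast B (2 * m)]
          push_cast
          rfl) φ hs c
      exact h
  refine ⟨main, ?_⟩
  obtain ⟨E, hE1, hE2⟩ := main ℚ 1 one_pos
  refine ⟨E, hE1, ?_⟩
  -- almost every real number, the exponent `2`
  have hvol : ∀ c : ℝ, ∀ᵐ ξ : ℝ, {x | x ∈ E ∧ dist ξ ((x 0 : ℚ) : ℝ) ≤
      c * height x ^ (-(2 * ((1 : ℕ) : ℝ) / 1))}.Finite := by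
    intro c
    have h := hE2 ℝ (fun x => ((x 0 : ℚ) : ℝ)) 1 c one_pos
    rwa [MeasureTheory.hausdorffMeasure_real] at h
  have hall : ∀ᵐ ξ : ℝ, ∀ n : ℕ, {x | x ∈ E ∧ dist ξ ((x 0 : ℚ) : ℝ) ≤
      (n : ℝ) * height x ^ (-(2 * ((1 : ℕ) : ℝ) / 1))}.Finite := ae_all_iff.2 fun n => hvol n
  filter_upwards [hall] with ξ hξ
  obtain ⟨n, hn⟩ := exists_nat_ge ((|ξ| + 2) ^ 2)
  refine Set.Finite.of_finite_image (f := fun q : ℚ => (fun _ => q : Fin 1 → ℚ)) ((hξ n).subset ?_)
    (fun a _ b _ hab => congrFun hab 0)
  rintro _ ⟨q, ⟨hq1, hq2⟩, rfl⟩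
  refine ⟨hq1, ?_⟩
  show dist ξ (q : ℝ) ≤ _
  have hden : (1 : ℝ) ≤ q.den := by exact_mod_cast q.den_pos
  have hnum : |(q : ℝ)| ≤ |ξ| + 1 := by
    have h1 : |ξ - q| ≤ 1 := hq2.trans (by
      rw [div_le_one (by positivity)]
      nlinarith)
    have h2 : |(q : ℝ)| ≤ |ξ| + |ξ - q| := by
      have e : (q : ℝ) = ξ - (ξ - q) := by ring
      calc |(q : ℝ)| = |ξ - (ξ - q)| := by rw [← e]
        _ ≤ |ξ| + |ξ - q| := abs_sub _ _
    linarith
  have hH : height (fun _ : Fin 1 => q) ≤ (|ξ| + 2) * q.den := by
    rw [height_le one_pos]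
    intro _
    rw [Rat.mulHeight₁_eq_max]
    have h3 : (q.num.natAbs : ℝ) = |(q : ℝ)| * q.den := by
      rw [Nat.cast_natAbs, Int.cast_abs]
      have h4 : ((q.num : ℤ) : ℝ) = (q : ℝ) * q.den := by
        exact_mod_cast (Rat.mul_den_eq_num q).symm
      rw [h4, abs_mul, Nat.abs_cast]
    push_cast
    refine max_le ?_ ?_
    · rw [h3]
      exact mul_le_mul_of_nonneg_right (by linarith) (by positivity)
    · have := abs_nonneg ξ
      nlinarith
  have hH0 : 1 ≤ height (fun _ : Fin 1 => q) :=
    (Height.one_le_mulHeight₁ q).trans (le_height (fun _ : Fin 1 => q) 0)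
  rw [Real.dist_eq]
  refine hq2.trans ?_
  have e : (-(2 * ((1 : ℕ) : ℝ) / 1)) = (-2 : ℝ) := by norm_num
  rw [e, Real.rpow_neg (by linarith), ← div_eq_mul_inv, div_le_div_iff₀ (by positivity) (by positivity)]
  have h5 : height (fun _ : Fin 1 => q) ^ (2 : ℝ) ≤ ((|ξ| + 2) * q.den) ^ (2 : ℝ) :=
    Real.rpow_le_rpow (by linarith) hH (by norm_num)
  rw [one_mul]
  refine h5.trans ?_
  rw [Real.rpow_two, mul_pow]
  exact mul_le_mul_of_nonneg_right hn (by positivity)

end Pool.Agent.Results.MP_8865d3_nt.BestApproximations
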