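import Mathlib
import Pool.Agent.V5helper83.PS.Sch

set_option autoImplicit false

/-!
# Vojta's conjecture with multiplier ideals on products of projective spaces, for all arrangement ideals

Let `k` be a number field and `X = ℙ^(N_1) × … × ℙ^(N_m)` over `k`. Fix finitely many hyperplanes
`L t l = 0` in the factors, in any position, with coefficients in a finite extension `K` of `k`.
There are finitely many hyperplanes `Z` of the factors, over `k`, such that the inequality of the
conjecture holds at the `k`-rational points off `Z` for ALL nonzero ideal sheaves `I` generated by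
multihomogeneous forms over `k` which are products of the `L t l` over `K`, ALL finite sets `S` of
places of `k` and ALL `ε > 0`: the exceptional set depends only on the arrangement. For instance, on
`(ℙ¹)^m` one can take all the ideals generated by products of polynomials in one variable each with
zeros in a given finite set.

The multiplier ideal `I⁻` is defined by its valuative criterion: a local section `u` is in `I⁻` if and
only if `w(u) + A(w) ≥ w(I)` (written additively) for all valuations `w`, where `A(w)` is the log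
discrepancy. Here `exp (-A(w))` is the norm of a generator of the canonical sheaf at the centre of `w`
in the lattice of logarithmic differential forms: the infimum of the `r` such that the generator is
`∑ g_s dlog p_{s,1} ∧ … ∧ dlog p_{s,N}` with `|g_s|_w ≤ r` (for a divisor `E` over `X` this is
`A(E) = 1 + ord_E(K_{X'/X})`). As `I⁻` is coherent it is generated by finitely many forms `u_i`.

Proof. At every place one chooses a basis of the linear forms of each factor which is as small as
possible at the point. Then all generators of `I` have, up to a constant, the size given by a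
monomial valuation in these coordinates, whose log discrepancy is known, so that the local term
`λ_I - λ_{I⁻}` is at most the local height of the coordinate hyperplanes. The sum over `S` of these is
estimated, in each factor, with the subspace theorem in Vojta's form (one exceptional set for all
`S` and `ε`), of the library `Pool.Agent.R405`.
-/

namespace Pool.Agent.Results.MP_8865d3_nt.ProductsOfProjectiveSpaces

open MvPolynomial NumberField IsDedekindDomain

/-- The homogeneous coordinates `X ⟨t, i⟩`, `i ≤ N t`, of `ℙ^(N_1) × … × ℙ^(N_m)`. -/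
abbrev Coord {m : ℕ} (N : Fin m → ℕ) : Type := Σ t : Fin m, Fin (N t + 1)

/-- The places of a number field. -/
abbrev Place (k : Type) [Field k] [NumberField k] : Type :=
  InfinitePlace k ⊕ HeightOneSpectrum (𝓞 k)

/-- The absolute value of a place; for a prime ideal `p` it is `x ↦ (N p) ^ (- ord_p x)`. -/
noncomputable def absv {k : Type} [Field k] [NumberField k] : Place k → AbsoluteValue k ℝ
  | Sum.inl w => w.1
  | Sum.inr p => (FinitePlace.mk p).1

/-- The weight: `2` for the complex places and `1` for the others. -/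
noncomputable def weight {k : Type} [Field k] [NumberField k] : Place k → ℝ
  | Sum.inl w => w.mult
  | Sum.inr _ => 1

/-- Points of the product, in homogeneous coordinates (each `x t` should be nonzero). -/
abbrev Point (k : Type) {m : ℕ} (N : Fin m → ℕ) : Type := ∀ t, Fin (N t + 1) → k

/-- A finite family of forms with their multidegrees. -/
structure Forms (k : Type) [Field k] {m : ℕ} (N : Fin m → ℕ) where
  /-- the number of the forms -/
  len : ℕ
  /-- the multidegrees -/
  deg : Fin len → Fin m → ℕ
  /-- the forms -/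
  form : Fin len → MvPolynomial (Coord N) k

/-- The value of a form at a point. -/
noncomputable def value {k : Type} [Field k] {m : ℕ} {N : Fin m → ℕ} (x : Point k N)
    (P : MvPolynomial (Coord N) k) : k :=
  eval (fun c : Coord N => x c.1 c.2) P

/-- The local height `λ_I(x, v)` of the ideal sheaf `I` on the product of the `ℙ^(N t)` generated by
the forms `F j` of multidegrees `d j` (normalised by the degree of `k` as in the problem):
`-log max_j (|F_j(x)|_v / ∏_t (max_i |x_{t,i}|_v) ^ (d_j t))`. -/
noncomputable def localHeight {k : Type} [Field k] [NumberField k] {m : ℕ} {N : Fin m → ℕ}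
    (v : Place k) (I : Forms k N) (x : Point k N) : ℝ :=
  weight v * -Real.log (⨆ j, absv v (value x (I.form j)) /
    ∏ t, (⨆ i, absv v (x t i)) ^ I.deg j t) / Module.finrank ℚ k

/-- The absolute logarithmic height. -/
noncomputable def height {k : Type} [Field k] [NumberField k] {n : ℕ} (x : Fin n → k) : ℝ :=
  Height.logHeight x / Module.finrank ℚ k

/-- The height `h_K = -∑ (N t + 1) h(x t)` of the canonical divisor. -/
noncomputable def canonicalHeight {k : Type} [Field k] [NumberField k] {m : ℕ} {N : Fin m → ℕ}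
    (x : Point k N) : ℝ :=
  -∑ t, ((N t : ℝ) + 1) * height (x t)

/-- The height `h_A = ∑ h(x t)` of an ample divisor. -/
noncomputable def ampleHeight {k : Type} [Field k] [NumberField k] {m : ℕ} {N : Fin m → ℕ}
    (x : Point k N) : ℝ :=
  ∑ t, height (x t)

/-- Multihomogeneous polynomials of multidegree `d`. -/
def IsMultihomogeneous {k : Type} [Field k] {m : ℕ} {N : Fin m → ℕ} (d : Fin m → ℕ)
    (P : MvPolynomial (Coord N) k) : Prop :=
  ∀ e, coeff e P ≠ 0 → ∀ t, ∑ i, e ⟨t, i⟩ = d t

/-- Over `K`, the form `F` is a constant times a product of linear forms `∑ L_{t,l,i} X_{t,i}` of the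
factors, with `d t` forms of the factor `t`. -/
def IsProduct {k K : Type} [Field k] [Field K] [Algebra k K] {m : ℕ} {N : Fin m → ℕ}
    {ι : Fin m → Type} (L : ∀ t, ι t → Fin (N t + 1) → K) (d : Fin m → ℕ)
    (F : MvPolynomial (Coord N) k) : Prop :=
  ∃ (c : K) (r : ℕ) (σ : Fin r → Σ t, ι t),
    (∀ t, d t = (Finset.univ.filter fun s => (σ s).1 = t).card) ∧
    map (algebraMap k K) F = C c * ∏ s, ∑ i, C (L (σ s).1 (σ s).2 i) * X ⟨(σ s).1, i⟩

/-- The valuations of the function field of the product of the projective spaces over `k` (real,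
written multiplicatively, trivial on `k`), as functions on all multihomogeneous forms: `w(P)` is the
value of `P / ∏_t X_{t,i_t} ^ deg_t P` for indices `i_t` with maximal `w(X_{t,i_t})`. -/
def IsPlace {k : Type} [Field k] {m : ℕ} {N : Fin m → ℕ}
    (w : Valuation (MvPolynomial (Coord N) k) NNReal) : Prop :=
  (∀ c : k, c ≠ 0 → w (C c) = 1) ∧ (∀ c, w (X c) ≤ 1) ∧ (∀ t, ∃ i, w (X ⟨t, i⟩) = 1) ∧
    ∀ P : MvPolynomial (Coord N) k, P ≠ 0 → w P ≠ 0

/-- The Jacobian determinant of a family of polynomials indexed by the coordinates. -/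
noncomputable def jacobian {k : Type} [Field k] {m : ℕ} {N : Fin m → ℕ}
    (p : Coord N → MvPolynomial (Coord N) k) : MvPolynomial (Coord N) k :=
  (Matrix.of fun c c' => pderiv c (p c')).det

/-- The wedge product of all `dX_c` is `∑_s (h_s / q)` times the wedge product of the `dlog p_{s,c}`,
one for each coordinate `c`; that is, `1 = ∑_s (h_s / q) det (∂_c p_{s,c'} / p_{s,c'})`. (This equation
is written without denominators.) -/
def IsLogExpression {k : Type} [Field k] {m : ℕ} {N : Fin m → ℕ} {T : ℕ}
    (q : MvPolynomial (Coord N) k) (h : Fin T → MvPolynomial (Coord N) k)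
    (p : Fin T → Coord N → MvPolynomial (Coord N) k) : Prop :=
  q * ∏ s, ∏ c, p s c = ∑ s, h s * jacobian (p s) * ∏ s' ∈ Finset.univ.erase s, ∏ c, p s' c

/-- The norm of the canonical form is at most `r`: in homogeneous coordinates the wedge product of all
`dX_c` is `∑_s (h_s / q)` times the wedge product of the `dlog p_{s,c}`, one for each coordinate `c`,
with `w(h_s / q) ≤ r` and nonzero multihomogeneous forms `p_{s,c}`. -/
def CanonicalNormLE {k : Type} [Field k] {m : ℕ} {N : Fin m → ℕ}
    (w : Valuation (MvPolynomial (Coord N) k) NNReal) (r : NNReal) : Prop :=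
  ∃ (T : ℕ) (e : Fin m → ℕ) (q : MvPolynomial (Coord N) k)
    (h : Fin T → MvPolynomial (Coord N) k) (p : Fin T → Coord N → MvPolynomial (Coord N) k),
    IsMultihomogeneous e q ∧ q ≠ 0 ∧
    (∀ s, IsMultihomogeneous (fun t => e t + (N t + 1)) (h s) ∧ w (h s) ≤ r * w q) ∧
    (∀ s c, (∃ d, IsMultihomogeneous d (p s c)) ∧ p s c ≠ 0) ∧ IsLogExpression q h p

/-- The form `u` is a section of (a twist of) the multiplier ideal `I⁻` of the ideal `I` generated by
the `F j`: for all valuations `w`, `w(u) exp (-A(w)) ≤ w(I) = max_j w(F_j)`. -/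
def InMultiplierIdeal {k : Type} [Field k] {m : ℕ} {N : Fin m → ℕ} (I : Forms k N)
    (u : MvPolynomial (Coord N) k) : Prop :=
  ∀ w : Valuation (MvPolynomial (Coord N) k) NNReal, IsPlace w →
    ∃ r : NNReal, (∀ r' : NNReal, r < r' → CanonicalNormLE w r') ∧ w u * r ≤ ⨆ j, w (I.form j)

/-- The forms `I` are products of the linear forms `L t l` over `K`, not all zero. -/
def IsArrangementIdeal {k K : Type} [Field k] [Field K] [Algebra k K] {m : ℕ} {N : Fin m → ℕ}
    {ι : Fin m → Type} (L : ∀ t, ι t → Fin (N t + 1) → K) (I : Forms k N) : Prop :=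
  (∀ j, IsProduct L (I.deg j) (I.form j)) ∧ ∃ j, I.form j ≠ 0

/-- The `J` are multihomogeneous forms in the multiplier ideal `I⁻`. -/
def IsFamilyInMultiplierIdeal {k : Type} [Field k] {m : ℕ} {N : Fin m → ℕ} (I J : Forms k N) :
    Prop :=
  ∀ i, IsMultihomogeneous (J.deg i) (J.form i) ∧ InMultiplierIdeal I (J.form i)

/-- The point `x` is not on the hyperplanes `Z t` of the factors. -/
def IsOff {k : Type} [Field k] {m : ℕ} {N : Fin m → ℕ} (Z : ∀ t, Finset (Fin (N t + 1) → k))
    (x : Point k N) : Prop :=
  ∀ t, ∀ z ∈ Z t, ∑ j, z j * x t j ≠ 0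

/-- **Vojta's conjecture with multiplier ideals for arrangements in products of projective spaces.**
Let `k ⊆ K` be number fields. Given finitely many linear forms `L t l ≠ 0` over `K` in the coordinates
of the factors of `X = ℙ^(N_1) × … × ℙ^(N_m)` there are finite sets `Z t` of hyperplanes over `k` of
the factors such that: for all nonzero ideal sheaves on `X` generated by forms `I` over `k`
which are products of the `L t l` over `K`, all families of forms `J` in `I⁻`, all finite sets `S` of
places of `k` and all `ε > 0` there is a constant `C` such that for all points `x` of `X` over `k` off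
the `Z t` which are not common zeros of the forms `J`
`h_K(x) + ∑_{v ∈ S} λ_I(x, v) - ∑_{v ∈ S} λ_J(x, v) ≤ ε h_A(x) + C`
(and `x` is not a zero of `I`, so `λ_I(x, v)` is finite) with `h_K(x) = -∑ (N t + 1) h(x t)` and `h_A(x) = ∑ h(x t)`. (If the `J` generate `I⁻`, then
`λ_J = λ_{I⁻}`.) -/
theorem result (k K : Type) [Field k] [NumberField k] [Field K] [NumberField K] [Algebra k K]
    (m : ℕ) (N : Fin m → ℕ) (ι : Fin m → Type) [∀ t, Finite (ι t)]
    (L : ∀ t, ι t → Fin (N t + 1) → K) (hL : ∀ t l, L t l ≠ 0) :
    ∃ Z : ∀ t, Finset (Fin (N t + 1) → k), (∀ t, ∀ z ∈ Z t, z ≠ 0) ∧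
      ∀ I J : Forms k N, IsArrangementIdeal L I → IsFamilyInMultiplierIdeal I J →
      ∀ (S : Finset (Place k)) (ε : ℝ), 0 < ε →
      ∃ C : ℝ, ∀ x : Point k N, (∀ t, x t ≠ 0) → IsOff Z x → (∃ i, value x (J.form i) ≠ 0) →
        (∃ j, value x (I.form j) ≠ 0) ∧
        canonicalHeight x + ∑ v ∈ S, localHeight v I x - ∑ v ∈ S, localHeight v J x ≤
          ε * ampleHeight x + C := by
  classical
  have := fun t => Fintype.ofFinite (ι t)
  obtain ⟨Z, hZ, hmain⟩ := Pool.Agent.V5helper83.PS.arrP (k := k) (K := K)
    (n := fun t => N t + 1) (fun t => Nat.succ_le_succ (Nat.zero_le _)) L hL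
  choose g hg0 hg using fun t l => Pool.Agent.R405.descend (k := k) (L t l) (hL t l)
  refine ⟨fun t => Z t ∪ Finset.univ.image (g t), fun t z hz => ?_, ?_⟩
  · rcases Finset.mem_union.1 hz with hz | hz
    · exact hZ t z hz
    · obtain ⟨l, -, rfl⟩ := Finset.mem_image.1 hz
      exact hg0 t l
  rintro ⟨a, d, F⟩ ⟨b, e, u⟩ ⟨hF, hne⟩ hu S ε hε
  change ∀ j, IsProduct L (d j) (F j) at hF
  change ∃ j, F j ≠ 0 at hne
  change ∀ i, IsMultihomogeneous (e i) (u i) ∧ InMultiplierIdeal ⟨a, d, F⟩ (u i) at hu
  choose c r σ hd hfac using hF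
  have hm : ∀ i, Pool.Agent.V5helper83.PS.InMult F (u i) := by
    intro i w hw
    obtain ⟨ρ, hρ, hle⟩ := (hu i).2 w hw
    refine ⟨ρ, fun r' hr' => ?_, hle⟩
    obtain ⟨T, e', q, h, p, -, hq0, hh, hp, hid⟩ := hρ r' hr'
    exact ⟨T, q, h, p, hq0, fun s => (hh s).2, fun s c => (hp s c).2, hid⟩
  obtain ⟨C, hC⟩ := hmain a F c r σ hfac hne b u e (fun i => (hu i).1) hm S ε hε
  refine ⟨C / Module.finrank ℚ k, fun x hx hZx hux => ⟨?_, ?_⟩⟩
  · obtain ⟨j, hj⟩ := hne
    refine ⟨j, fun h0 => ?_⟩
    have hc : c j ≠ 0 := fun hc => hj (map_injective _ (algebraMap k K).injective (by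
      rw [hfac, hc, C_0, zero_mul, map_zero]))
    have e1 : eval (fun c => algebraMap k K (x c.1 c.2)) (map (algebraMap k K) (F j)) =
        algebraMap k K (value x (F j)) := by
      rw [eval_map, ← aeval_def]
      exact aeval_algebraMap_apply K (fun c : Coord N => x c.1 c.2) (F j)
    rw [hfac, map_mul, eval_C, map_prod] at e1
    have e2 : value x (F j) = 0 := h0
    rw [e2, map_zero] at e1
    refine mul_ne_zero hc (Finset.prod_ne_zero_iff.2 fun s _ => ?_) e1
    rw [map_sum]
    simp only [map_mul, eval_C, eval_X]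
    exact hg _ _ _ (hZx _ _ (Finset.mem_union_right _ (Finset.mem_image_of_mem _ (Finset.mem_univ _))))
  have h1 := hC x hx (fun t z hz => hZx t z (Finset.mem_union_left _ hz)) hux
  have hdeg : (0 : ℝ) < Module.finrank ℚ k := by exact_mod_cast Module.finrank_pos
  have hav : ∀ v : Place k, absv v = Pool.Agent.W180.OP.av v := by
    intro v
    rcases v with v | v
    · rfl
    · rfl
  have hwt : ∀ v : Place k, weight v = Pool.Agent.W180.OP.wt v := by
    intro v
    rcases v with v | v
    · rfl
    · rfl
  have hdd : ∀ (v : Place k) (j : Fin a), ∏ t, (⨆ i, absv v (x t i)) ^ d j t =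
      ∏ s, Pool.Agent.W180.OP.nrm (Pool.Agent.W180.OP.av v) (x (σ j s).1) := by
    intro v j
    rw [← Finset.prod_fiberwise (s := Finset.univ) (g := fun s => (σ j s).1)
      (f := fun s => Pool.Agent.W180.OP.nrm (Pool.Agent.W180.OP.av v) (x (σ j s).1))]
    refine Finset.prod_congr rfl fun t _ => ?_
    rw [Finset.prod_congr rfl (g := fun _ =>
      Pool.Agent.W180.OP.nrm (Pool.Agent.W180.OP.av v) (x t)) fun s hs => by
        rw [(Finset.mem_filter.1 hs).2], Finset.prod_const, ← hd j t, hav]
    rfl
  have h2 : ∑ v ∈ S, localHeight v ⟨a, d, F⟩ x - ∑ v ∈ S, localHeight v ⟨b, e, u⟩ x =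
      (∑ v ∈ S, Pool.Agent.W180.OP.wt v *
        (Pool.Agent.V5helper83.PS.lamP (Pool.Agent.W180.OP.av v)
          (fun j x => ∏ s, Pool.Agent.W180.OP.nrm (Pool.Agent.W180.OP.av v) (x (σ j s).1)) F x -
        Pool.Agent.V5helper83.PS.lamP (Pool.Agent.W180.OP.av v)
          (fun i x => ∏ t, Pool.Agent.W180.OP.nrm (Pool.Agent.W180.OP.av v) (x t) ^ e i t) u x)) /
      Module.finrank ℚ k := by
    rw [← Finset.sum_sub_distrib, Finset.sum_div]
    refine Finset.sum_congr rfl fun v _ => ?_
    unfold localHeight value Pool.Agent.V5helper83.PS.lamP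
    simp only [hdd, hwt]
    simp only [hav]
    rw [← sub_div, ← mul_sub]
    rfl
  unfold canonicalHeight ampleHeight
  have h3 : -∑ t, ((N t : ℝ) + 1) * height (x t) + ∑ v ∈ S, localHeight v ⟨a, d, F⟩ x -
      ∑ v ∈ S, localHeight v ⟨b, e, u⟩ x = -∑ t, ((N t : ℝ) + 1) * height (x t) +
      (∑ v ∈ S, localHeight v ⟨a, d, F⟩ x - ∑ v ∈ S, localHeight v ⟨b, e, u⟩ x) := by ring
  rw [h3, h2]
  have h4 : ∑ t, ((N t : ℝ) + 1) * height (x t) =
      (∑ t, ((N t : ℝ) + 1) * Height.logHeight (x t)) / Module.finrank ℚ k := by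
    rw [Finset.sum_div]
    exact Finset.sum_congr rfl fun t _ => mul_div_assoc' _ _ _
  have h5 : ∑ t, height (x t) = (∑ t, Height.logHeight (x t)) / Module.finrank ℚ k := by
    rw [Finset.sum_div]
    rfl
  rw [h4, h5, ← mul_div_assoc, ← add_div, neg_add_eq_sub, ← sub_div]
  refine (div_le_div_iff_of_pos_right hdeg).2 ?_
  have h6 : ∑ t, (((N t + 1 : ℕ) : ℝ) + ε) * Height.logHeight (x t) =
      ∑ t, ((N t : ℝ) + 1) * Height.logHeight (x t) + ε * ∑ t, Height.logHeight (x t) := by
    rw [Finset.mul_sum, ← Finset.sum_add_distrib]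
    refine Finset.sum_congr rfl fun t _ => ?_
    push_cast
    ring
  rw [h6] at h1
  linarith

end Pool.Agent.Results.MP_8865d3_nt.ProductsOfProjectiveSpaces
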