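import Pool.Agent.Results.MP_8865d3_nt.KummerCovers
import Pool.Agent.R482.ST.Vec

/-!
# Vojta's conjecture with multiplier ideals above all rational points near the vectors of a sequence

Let `a_0, …, a_{r-1}` be linear forms in `n + 1` variables over `ℚ` which span the space of linear forms, an arbitrary
essential arrangement of hyperplanes in `ℙ^n`, and let `X_m`, `m ≥ 1`, be its smooth Kummer covers, with the normal
crossings divisor `D` (see the starting file `KummerCovers`). The starting file shows, over any number field, for all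
`x ∈ ℙ^n` off the arrangement with `O(B ^ (n + 1 - κ + δ))` exceptions of height at most `B`, `0 ≤ κ ≤ 1 / 2`: for ALL `m`,
ALL points `P` of `X_m` above `x` over any number field `L`, ALL ideals `I` which are monomial in the components of `D` and
ALL finite sets `S` of primes

  `h_K(P) + ∑_{v ∈ S ∪ {∞}} (λ_I - λ_{I⁻})(P, v) + (n + 1 - κ) h(x) ≤ d(L) + ∑_{p ∈ S} log p + c`.   (∗)

Nothing is said there about the points near a given point.

Let `f_k`, `k = 0, 1, 2, …`, be positive functions on `(a₀, ∞)`, `a₀ ≥ 0`, such that `f_k(t) / t` is nondecreasing, and such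
that the sequence `f_k(t)` has exponent of convergence at most `τ` for each `t > a₀`: for instance `f_k(t) = v_k t`
(dilatations; `τ` is the exponent of convergence of `v_k > 0`, so `τ = 0` for `v_k = k!` or `2 ^ k`), `f_k(t) = t ^ (v_k)`
for exponents `v_k ≥ 1` (`τ = 0`), or the orbits of a map `g` with `g(t) > t` and `g(t) / t` nondecreasing (`τ = 0`).

**Theorem.** For all `θ < 1` and all `u ∈ ℝ^(n+1)`, `‖u‖ > a₀`, outside a set of Hausdorff dimension at most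
`(n + 1 - κ + τ) / (1 - θ)`, and for all `C` and `c`, for all large `k`, with `r = f_k(‖u‖)`: for ALL points
`x ∈ ℙ^n(ℚ)` off the arrangement whose coprime integral coordinates are at a distance at most `C r ^ θ` from
`(r / ‖u‖) u` the inequality (∗) holds for ALL `m`, `P`, `L`, `I` and `S`.

If `τ + (n + 1) θ < κ`, this is true for almost all `u`.

Proof. A point has two coprime vectors of coordinates, so the exceptional vectors are few, and a thin set of integral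
vectors is seen in the windows of few `u` (`Pool.Agent.R482.ST`, helper482).
-/

set_option autoImplicit false

namespace Pool.Agent.Results.MP_8865d3_nt.StarshapedKummerPoints

open NumberField IsDedekindDomain LinearAlgebra.Projectivization
open KummerCovers (lin height Flat canonicalHeight proximity logDisc exceptional)
open scoped Classical

/-- the functions `f k` are positive on `(a, ∞)`, `a ≥ 0`, and `f k x / x` is nondecreasing there -/
def Starshaped (a : ℝ) (f : ℕ → ℝ → ℝ) : Prop :=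
  0 ≤ a ∧ ∀ k : ℕ, ∀ x y : ℝ, a < x → x ≤ y → 0 < f k x ∧ f k x / x ≤ f k y / y

/-- for each `x > a` the exponent of convergence of the sequence `f k x` is at most `τ` -/
def ExpLe (a : ℝ) (f : ℕ → ℝ → ℝ) (τ : ℝ) : Prop :=
  ∀ x : ℝ, a < x → ∀ t : ℝ, τ < t → Summable (fun k : ℕ => (f k x) ^ (-t))

/-- The inequality `h_K(P) + ∑_{v ∈ S ∪ {∞}} (λ_I - λ_{I⁻})(P, v) + (n + 1 - κ) h(x) ≤ d(L) + ∑_{p ∈ S} log p + c` holds
for all `m ≥ 1`, all number fields `L`, all points `P` of `X_m` over `L` above `x`, all monomial ideals `I` and all finite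
sets `S` of primes. -/
def Holds {n r : ℕ} (a : Fin r → Fin (n + 1) → ℚ) (κ c : ℝ) (x : ℙ ℚ (Fin (n + 1) → ℚ)) : Prop :=
  ∀ (m : ℕ) (L : Type) [Field L] [NumberField L] [Algebra ℚ L] (y : Fin r → L) (t : L)
    (E : Finset (Flat a → ℕ)) (S : Finset ℕ), 1 ≤ m → t ≠ 0 →
    (∀ i, y i ^ m = t * algebraMap ℚ L (lin (a i) x.rep)) → E.Nonempty → (∀ p ∈ S, p.Prime) →
      canonicalHeight a x y + proximity S y E + (n + 1 - κ) * height x ≤ logDisc L + ∑ p ∈ S, Real.log p + c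

theorem lin_rep {n : ℕ} (b v : Fin (n + 1) → ℚ) (hv : v ≠ 0) (h : lin b v ≠ 0) :
    lin b (Projectivization.mk ℚ v hv).rep ≠ 0 := by
  obtain ⟨l, hl⟩ := Projectivization.exists_smul_eq_mk_rep ℚ v hv
  rw [← hl]
  have : lin b (l • v) = (l : ℚ) * lin b v := by
    unfold lin
    rw [Finset.mul_sum]
    refine Finset.sum_congr rfl fun j _ => ?_
    rw [Pi.smul_apply, Units.smul_def, smul_eq_mul]
    ring
  rw [this]
  exact mul_ne_zero l.ne_zero h

/-- two coprime vectors of coordinates of a point differ by a sign -/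
theorem eq_or_neg {n : ℕ} {z w : Fin (n + 1) → ℤ} (hz : Finset.univ.gcd z = 1) (hw : Finset.univ.gcd w = 1)
    {l : ℚ} (h : ∀ i, l * (w i : ℚ) = (z i : ℚ)) : z = w ∨ z = -w := by
  have h1 : ∀ i, l.num * w i = l.den * z i := by
    intro i
    have h2 := h i
    rw [← Rat.num_div_den l, div_mul_eq_mul_div, div_eq_iff (by exact_mod_cast l.den_nz)] at h2
    have h3 : ((l.num * w i : ℤ) : ℚ) = ((z i * l.den : ℤ) : ℚ) := by
      push_cast
      exact h2
    have h4 : l.num * w i = z i * l.den := by exact_mod_cast h3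
    rw [h4, mul_comm]
  have h2 : normalize l.num = normalize (l.den : ℤ) := by
    have e1 : Finset.univ.gcd (fun i => l.num * w i) = normalize l.num * Finset.univ.gcd w := Finset.gcd_mul_left
    have e2 : Finset.univ.gcd (fun i => (l.den : ℤ) * z i) = normalize (l.den : ℤ) * Finset.univ.gcd z :=
      Finset.gcd_mul_left
    have e3 : (fun i => l.num * w i) = fun i => (l.den : ℤ) * z i := funext h1
    rw [e3, e2, hz, hw, mul_one, mul_one] at e1
    exact e1.symm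
  rw [← Int.abs_eq_normalize, ← Int.abs_eq_normalize, abs_of_nonneg (by positivity : (0 : ℤ) ≤ l.den)] at h2
  have hd : (l.den : ℤ) ≠ 0 := by exact_mod_cast l.den_nz
  rcases abs_eq (by positivity : (0 : ℤ) ≤ l.den) |>.1 h2 with h3 | h3
  · left
    funext i
    have h4 := h1 i
    rw [h3] at h4
    exact (mul_left_cancel₀ hd h4).symm
  · right
    funext i
    have h4 := h1 i
    rw [h3, neg_mul, ← mul_neg] at h4
    exact (mul_left_cancel₀ hd h4).symm

/-- the number of the coprime vectors of coordinates of exceptional points -/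
theorem count {n r : ℕ} (hn : 1 ≤ n) (a : Fin r → Fin (n + 1) → ℚ) (ha : ∀ i, a i ≠ 0)
    (hspan : Submodule.span ℚ (Set.range a) = ⊤) {κ : ℝ} (hκ0 : 0 ≤ κ) (hκ : κ ≤ 1 / 2) (c : ℝ) {δ : ℝ} (hδ : 0 < δ) :
    ∃ C : ℝ, ∀ H : ℕ, 1 ≤ H →
      (({z : Fin (n + 1) → ℤ | (∀ i, |z i| ≤ (H : ℤ)) ∧ Finset.univ.gcd z = 1 ∧
        ∃ hz : (fun i => (z i : ℚ)) ≠ 0, (∀ i, lin (a i) (fun j => (z j : ℚ)) ≠ 0) ∧
          ¬ Holds a κ c (Projectivization.mk ℚ (fun i => (z i : ℚ)) hz)}.ncard : ℕ) : ℝ) ≤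
        C * (H : ℝ) ^ ((n : ℝ) + 1 - κ + δ) := by
  obtain ⟨M, hM⟩ := KummerCovers.result ℚ n r hn a ha hspan κ c δ hκ0 hκ hδ
  refine ⟨2 * M, fun H hH => ?_⟩
  have hH1 : (1 : ℝ) ≤ H := by exact_mod_cast hH
  obtain ⟨h1, h2⟩ := hM H hH1
  obtain ⟨Z, hZ⟩ : ∃ Z : Set (Fin (n + 1) → ℤ), Z = {z : Fin (n + 1) → ℤ | (∀ i, |z i| ≤ (H : ℤ)) ∧ Finset.univ.gcd z = 1 ∧
        ∃ hz : (fun i => (z i : ℚ)) ≠ 0, (∀ i, lin (a i) (fun j => (z j : ℚ)) ≠ 0) ∧
          ¬ Holds a κ c (Projectivization.mk ℚ (fun i => (z i : ℚ)) hz)} := ⟨_, rfl⟩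
  rw [← hZ]
  have hZfin : Z.Finite := by
    have h3 : {z : Fin (n + 1) → ℤ | ∀ i, z i ∈ Set.Icc (-(H : ℤ)) (H : ℤ)}.Finite :=
      Set.Finite.pi' fun _ => Set.finite_Icc _ _
    refine h3.subset fun z hz i => ?_
    rw [hZ] at hz
    exact abs_le.1 (hz.1 i)
  have h10 : (fun _ => (1 : ℚ) : Fin (n + 1) → ℚ) ≠ 0 := fun h => one_ne_zero (congrFun h 0)
  obtain ⟨F, hF⟩ : ∃ F : (Fin (n + 1) → ℤ) → ℙ ℚ (Fin (n + 1) → ℚ), F = fun z =>
      if hz : (fun i => (z i : ℚ)) ≠ 0 then Projectivization.mk ℚ _ hz else Projectivization.mk ℚ _ h10 := ⟨_, rfl⟩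
  have hFz : ∀ (z : Fin (n + 1) → ℤ) (hz : (fun i => (z i : ℚ)) ≠ 0), F z = Projectivization.mk ℚ _ hz := by
    intro z hz
    rw [hF]
    exact dif_pos hz
  have hcard := Finset.card_le_mul_card_image (f := F) hZfin.toFinset 2 (by
    intro x hx
    obtain ⟨w, hw, hwx⟩ := Finset.mem_image.1 hx
    rw [Set.Finite.mem_toFinset, hZ] at hw
    obtain ⟨-, hw1, hw2, -⟩ := hw
    have hsub : {z ∈ hZfin.toFinset | F z = x} ⊆ {w, -w} := by
      intro z hz
      rw [Finset.mem_filter, Set.Finite.mem_toFinset, hZ] at hz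
      obtain ⟨⟨-, hz1, hz2, -⟩, hz3⟩ := hz
      rw [← hwx, hFz z hz2, hFz w hw2, Projectivization.mk_eq_mk_iff'] at hz3
      obtain ⟨l, hl⟩ := hz3
      have h4 : ∀ i, l * (w i : ℚ) = (z i : ℚ) := fun i => by
        have := congrFun hl i
        rwa [Pi.smul_apply, smul_eq_mul] at this
      rw [Finset.mem_insert, Finset.mem_singleton]
      exact eq_or_neg hz1 hw1 h4
    exact (Finset.card_le_card hsub).trans Finset.card_le_two)
  have himg : ((hZfin.toFinset.image F : Finset _) : Set (ℙ ℚ (Fin (n + 1) → ℚ))) ⊆ exceptional a κ c H := by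
    intro x hx
    rw [Finset.mem_coe, Finset.mem_image] at hx
    obtain ⟨z, hz, rfl⟩ := hx
    rw [Set.Finite.mem_toFinset, hZ] at hz
    obtain ⟨hz0, hz1, hz2, hz3, hz4⟩ := hz
    rw [hFz z hz2]
    refine ⟨fun i => lin_rep _ _ hz2 (hz3 i), ?_, ?_⟩
    · have h5 : Height.mulHeight (fun i => (z i : ℚ)) = ((⨆ i, |z i| : ℤ) : ℝ) :=
        Rat.mulHeight_eq_max_abs_of_gcd_eq_one hz1
      have h6 : (⨆ i, |z i| : ℤ) ≤ H := ciSup_le hz0
      have h7 : Real.exp (height (Projectivization.mk ℚ (fun i => (z i : ℚ)) hz2)) =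
          Height.mulHeight (fun i => (z i : ℚ)) := by
        unfold height
        rw [Module.finrank_self, Nat.cast_one, div_one, Projectivization.mulHeight_mk,
          Real.exp_log (Height.mulHeight_pos _)]
      rw [h7, h5]
      exact_mod_cast h6
    · unfold Holds at hz4
      push Not at hz4
      obtain ⟨m, L, i1, i2, i3, y, t, E, S, hm, ht, hy, hE, hS, h8⟩ := hz4
      exact ⟨m, L, i1, i2, i3, y, t, E, S, hm, ht, hy, hE, hS, h8⟩
  have h3 : (Z.ncard : ℝ) ≤ 2 * ((exceptional a κ c H).ncard : ℝ) := by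
    rw [Set.ncard_eq_toFinset_card Z hZfin]
    have h4 : (hZfin.toFinset.image F).card ≤ (exceptional a κ c H).ncard := by
      rw [← Set.ncard_coe_finset]
      exact Set.ncard_le_ncard himg h1
    exact_mod_cast hcard.trans (Nat.mul_le_mul_left 2 h4)
  refine h3.trans ?_
  rw [Module.finrank_self, Nat.cast_one, one_mul] at h2
  rw [mul_assoc]
  exact mul_le_mul_of_nonneg_left h2 (by norm_num)

/-- **Vojta's inequality with multiplier ideals above all points with coordinates near the vectors of a sequence.** -/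
theorem result (n r : ℕ) (hn : 1 ≤ n) (a : Fin r → Fin (n + 1) → ℚ) (ha : ∀ i, a i ≠ 0)
    (hspan : Submodule.span ℚ (Set.range a) = ⊤) :
    (∀ κ : ℝ, 0 ≤ κ → κ ≤ 1 / 2 → ∀ (a₀ : ℝ) (f : ℕ → ℝ → ℝ) (τ θ : ℝ), Starshaped a₀ f → 0 ≤ τ →
      ExpLe a₀ f τ → θ < 1 → ∃ E : Set (Fin (n + 1) → ℝ),
        dimH E ≤ ENNReal.ofReal (((n : ℝ) + 1 - κ + τ) / (1 - θ)) ∧
        ∀ u : Fin (n + 1) → ℝ, a₀ < ‖u‖ → u ∉ E → ∀ C c : ℝ, ∃ k₀ : ℕ, ∀ k : ℕ, k₀ ≤ k →
          ∀ z : Fin (n + 1) → ℤ, Finset.univ.gcd z = 1 →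
            (∀ i, |(z i : ℝ) - f k ‖u‖ / ‖u‖ * u i| ≤ C * (f k ‖u‖) ^ θ) →
            ∀ hz : (fun i => (z i : ℚ)) ≠ 0, (∀ i, lin (a i) (fun j => (z j : ℚ)) ≠ 0) →
              Holds a κ c (Projectivization.mk ℚ (fun i => (z i : ℚ)) hz)) ∧
    -- examples of starshaped functions
    (∀ (v : ℕ → ℝ) (τ : ℝ), (∀ k, 0 < v k) → (∀ t : ℝ, τ < t → Summable (fun k : ℕ => (v k) ^ (-t))) →
      Starshaped 0 (fun k x => v k * x) ∧ ExpLe 0 (fun k x => v k * x) τ) ∧
    (∀ v : ℕ → ℝ, (∀ k, 1 ≤ v k) → (∀ t : ℝ, 0 < t → Summable fun k : ℕ => Real.exp (-(t * v k))) →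
      Starshaped 1 (fun k x => x ^ (v k)) ∧ ExpLe 1 (fun k x => x ^ (v k)) 0) ∧
    (∀ (a : ℝ) (g : ℝ → ℝ), 0 ≤ a → (∀ x y : ℝ, a < x → x ≤ y → g x / x ≤ g y / y) → (∀ x : ℝ, a < x → x < g x) →
      Starshaped a (fun k x => g^[k] x) ∧ ExpLe a (fun k x => g^[k] x) 0) := by
  refine ⟨fun κ hκ0 hκ a₀ f τ θ hf hτ hE hθ => ?_, Pool.Agent.R482.ST.ex_mul, Pool.Agent.R482.ST.ex_pow,
    Pool.Agent.R482.ST.ex_orbit⟩
  have hn1 : (1 : ℝ) ≤ n := by exact_mod_cast hn
  have key : ∀ j : ℕ, ∃ E : Set (Fin (n + 1) → ℝ),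
      dimH E ≤ ENNReal.ofReal (((n : ℝ) + 1 - κ + τ) / (1 - θ)) ∧
      ∀ u : Fin (n + 1) → ℝ, a₀ < ‖u‖ → u ∉ E → ∀ C : ℝ, ∃ k₀ : ℕ, ∀ k : ℕ, k₀ ≤ k →
        ∀ z : Fin (n + 1) → ℤ, (∀ i, |(z i : ℝ) - f k ‖u‖ / ‖u‖ * u i| ≤ C * (f k ‖u‖) ^ θ) →
          ¬ (Finset.univ.gcd z = 1 ∧ ∃ hz : (fun i => (z i : ℚ)) ≠ 0,
            (∀ i, lin (a i) (fun j => (z j : ℚ)) ≠ 0) ∧
              ¬ Holds a κ (-(j : ℝ)) (Projectivization.mk ℚ (fun i => (z i : ℚ)) hz)) :=
    fun j => Pool.Agent.R482.ST.vec_prop (ι := Fin (n + 1))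
      (fun z _ => Finset.univ.gcd z = 1 ∧ ∃ hz : (fun i => (z i : ℚ)) ≠ 0,
            (∀ i, lin (a i) (fun j => (z j : ℚ)) ≠ 0) ∧
              ¬ Holds a κ (-(j : ℝ)) (Projectivization.mk ℚ (fun i => (z i : ℚ)) hz))
      (fun z X Y _ h => h) (s := (n : ℝ) + 1 - κ) (by linarith)
      (fun ε hε => count hn a ha hspan hκ0 hκ (-(j : ℝ)) hε) f a₀ τ θ hf hτ hE hθ
  choose E hE1 hE2 using key
  refine ⟨⋃ j, E j, ?_, fun u hu huE C c => ?_⟩
  · rw [dimH_iUnion]
    exact iSup_le hE1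
  · obtain ⟨j, hj⟩ := exists_nat_ge (-c)
    have huj : u ∉ E j := fun h => huE (Set.mem_iUnion.2 ⟨j, h⟩)
    obtain ⟨k₀, hk₀⟩ := hE2 j u hu huj C
    refine ⟨k₀, fun k hk z hz1 hz2 hz hz3 => ?_⟩
    have h1 : Holds a κ (-(j : ℝ)) (Projectivization.mk ℚ (fun i => (z i : ℚ)) hz) := by
      by_contra hcon
      exact hk₀ k hk z hz2 ⟨hz1, hz, hz3, hcon⟩
    intro m L _ _ _ y t I S hm ht hy hI hS
    have h2 := h1 m L y t I S hm ht hy hI hS
    linarith

end Pool.Agent.Results.MP_8865d3_nt.StarshapedKummerPoints
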