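import Mathlib
import Pool.Agent.V5helper83.PS.Few

set_option autoImplicit false

/-!
# Vojta's conjecture with multiplier ideals on products of projective spaces, at any two places of any field

Let `k` be a number field and `X = ℙ^(N_1) × … × ℙ^(N_m)` over `k`. Fix finitely many hyperplanes
`L t l = 0` over `k` in the factors, in any position. There are finitely many hyperplanes `Z` of the
factors such that, for ALL nonzero ideal sheaves `I` on `X` generated by products of the `L t l`, the
inequality `h_K(x) + ∑_{w ∈ W} (λ_I(x, w) - λ_{I⁻}(x, w)) ≤ C` holds with a CONSTANT which depends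
only on `I` (in place of `ε h(x) + d(x) + O(1)`) for ALL number fields `E` over `k`, of any degree, ALL
sets `W` of at most two places of `E`, archimedean or not, and ALL points `x` of `X` over `E` off `Z`.
For a set `W` of `s > 2` places it holds with the additional term `(s/2 - 1) ∑ (N_t + 1) h(x_t)` and
`s/2 · C` in place of `C`.

In the conjecture (`k = ℚ`) this is the case of the points whose field has at most two places above
`S`: for `S = {∞}` the rational and quadratic points and the points over complex cubic and totally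
complex quartic fields, for `S = {∞, p}` the rational points and the points over the imaginary
quadratic fields in which `p` does not split, with the same constant for all primes `p`. The starting
file `FewPlaces` contains the case of `ℙ^N` over `ℚ` in which `W` is the set of all archimedean places.

The multiplier ideal `I⁻` is defined by its valuative criterion: a local section `u` is in `I⁻` if and
only if `w(u) + A(w) ≥ w(I)` (written additively) for all valuations `w`, where `A(w)` is the log
discrepancy. Here `exp (-A(w))` is the norm of a generator of the canonical sheaf at the centre of `w`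
in the lattice of logarithmic differential forms: the infimum of the `r` such that the generator is
`∑ g_s dlog p_{s,1} ∧ … ∧ dlog p_{s,N}` with `|g_s|_w ≤ r` (for a divisor `E` over `X` this is
`A(E) = 1 + ord_E(K_{X'/X})`). As `I⁻` is coherent it is generated by finitely many forms `u_i`.

Proof. At every place the term `λ_I - λ_{I⁻}` is at most the local height of the coordinate hyperplanes
of a basis of the linear forms which is as small as possible at the point, with an error whose sum
over the places is uniformly bounded in terms of the degree of `E`. For two places there is a basis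
adapted to both flags (Bruhat decomposition), for which the sum over both places is bounded by
Liouville's inequality.
-/

namespace Pool.Agent.Results.MP_8865d3_nt.TwoPlacesOnProducts

open MvPolynomial NumberField IsDedekindDomain

/-- The homogeneous coordinates `X ⟨t, i⟩`, `i ≤ N t`, of `ℙ^(N_1) × … × ℙ^(N_m)`. -/
abbrev Coord {m : ℕ} (N : Fin m → ℕ) : Type := Σ t : Fin m, Fin (N t + 1)

/-- The places of a number field. -/
abbrev Place (k : Type) [Field k] [NumberField k] : Type :=
  InfinitePlace k ⊕ HeightOneSpectrum (𝓞 k)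

/-- The absolute value of a place; for a prime ideal `p` it is `x ↦ (N p) ^ (- ord_p x)`. -/
noncomputable def absv {k : Type} [Field k] [NumberField k] : Place k → AbsoluteValue k ℝ
  | Sum.inl w => w.1
  | Sum.inr p => (FinitePlace.mk p).1

/-- The weight: `2` for the complex places and `1` for the others. -/
noncomputable def weight {k : Type} [Field k] [NumberField k] : Place k → ℝ
  | Sum.inl w => w.mult
  | Sum.inr _ => 1

/-- Points of the product, in homogeneous coordinates (each `x t` should be nonzero). -/
abbrev Point (k : Type) {m : ℕ} (N : Fin m → ℕ) : Type := ∀ t, Fin (N t + 1) → k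

/-- A finite family of forms with their multidegrees. -/
structure Forms (k : Type) [Field k] {m : ℕ} (N : Fin m → ℕ) where
  /-- the number of the forms -/
  len : ℕ
  /-- the multidegrees -/
  deg : Fin len → Fin m → ℕ
  /-- the forms -/
  form : Fin len → MvPolynomial (Coord N) k

/-- The value of a form over `k` at a point over `E`. -/
noncomputable def value {k E : Type} [Field k] [Field E] [Algebra k E] {m : ℕ} {N : Fin m → ℕ}
    (x : Point E N) (P : MvPolynomial (Coord N) k) : E :=
  aeval (fun c : Coord N => x c.1 c.2) P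

/-- The contribution `λ_I(x, w)` of a place `w` of the field `E` to the local height at the point `x`
over `E` of the ideal sheaf `I` on the product of the `ℙ^(N t)` generated by the forms `F j` over `k` of
multidegrees `d j`: `-log max_j (|F_j(x)|_w / ∏_t (max_i |x_{t,i}|_w) ^ (d_j t))`, times
`[E_w : ℚ_v] / [E : ℚ]` as in the problem. -/
noncomputable def localHeight {k E : Type} [Field k] [Field E] [NumberField E] [Algebra k E] {m : ℕ}
    {N : Fin m → ℕ} (w : Place E) (I : Forms k N) (x : Point E N) : ℝ :=
  weight w * -Real.log (⨆ j, absv w (value x (I.form j)) /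
    ∏ t, (⨆ i, absv w (x t i)) ^ I.deg j t) / Module.finrank ℚ E

/-- The absolute logarithmic height. -/
noncomputable def height {k : Type} [Field k] [NumberField k] {n : ℕ} (x : Fin n → k) : ℝ :=
  Height.logHeight x / Module.finrank ℚ k

/-- The height `h_K = -∑ (N t + 1) h(x t)` of the canonical divisor. -/
noncomputable def canonicalHeight {k : Type} [Field k] [NumberField k] {m : ℕ} {N : Fin m → ℕ}
    (x : Point k N) : ℝ :=
  -∑ t, ((N t : ℝ) + 1) * height (x t)

/-- Multihomogeneous polynomials of multidegree `d`. -/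
def IsMultihomogeneous {k : Type} [Field k] {m : ℕ} {N : Fin m → ℕ} (d : Fin m → ℕ)
    (P : MvPolynomial (Coord N) k) : Prop :=
  ∀ e, coeff e P ≠ 0 → ∀ t, ∑ i, e ⟨t, i⟩ = d t

/-- The form `F` is a constant times a product of linear forms `∑ L_{t,l,i} X_{t,i}` of the
factors, with `d t` forms of the factor `t`. -/
def IsProduct {k : Type} [Field k] {m : ℕ} {N : Fin m → ℕ}
    {ι : Fin m → Type} (L : ∀ t, ι t → Fin (N t + 1) → k) (d : Fin m → ℕ)
    (F : MvPolynomial (Coord N) k) : Prop :=
  ∃ (c : k) (r : ℕ) (σ : Fin r → Σ t, ι t),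
    (∀ t, d t = (Finset.univ.filter fun s => (σ s).1 = t).card) ∧
    F = C c * ∏ s, ∑ i, C (L (σ s).1 (σ s).2 i) * X ⟨(σ s).1, i⟩

/-- The valuations of the function field of the product of the projective spaces over `k` (real,
written multiplicatively, trivial on `k`), as functions on all multihomogeneous forms: `w(P)` is the
value of `P / ∏_t X_{t,i_t} ^ deg_t P` for indices `i_t` with maximal `w(X_{t,i_t})`. -/
def IsPlace {k : Type} [Field k] {m : ℕ} {N : Fin m → ℕ}
    (w : Valuation (MvPolynomial (Coord N) k) NNReal) : Prop :=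
  (∀ c : k, c ≠ 0 → w (C c) = 1) ∧ (∀ c, w (X c) ≤ 1) ∧ (∀ t, ∃ i, w (X ⟨t, i⟩) = 1) ∧
    ∀ P : MvPolynomial (Coord N) k, P ≠ 0 → w P ≠ 0

/-- The Jacobian determinant of a family of polynomials indexed by the coordinates. -/
noncomputable def jacobian {k : Type} [Field k] {m : ℕ} {N : Fin m → ℕ}
    (p : Coord N → MvPolynomial (Coord N) k) : MvPolynomial (Coord N) k :=
  (Matrix.of fun c c' => pderiv c (p c')).det

/-- The wedge product of all `dX_c` is `∑_s (h_s / q)` times the wedge product of the `dlog p_{s,c}`,
one for each coordinate `c`; that is, `1 = ∑_s (h_s / q) det (∂_c p_{s,c'} / p_{s,c'})`. (This equation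
is written without denominators.) -/
def IsLogExpression {k : Type} [Field k] {m : ℕ} {N : Fin m → ℕ} {T : ℕ}
    (q : MvPolynomial (Coord N) k) (h : Fin T → MvPolynomial (Coord N) k)
    (p : Fin T → Coord N → MvPolynomial (Coord N) k) : Prop :=
  q * ∏ s, ∏ c, p s c = ∑ s, h s * jacobian (p s) * ∏ s' ∈ Finset.univ.erase s, ∏ c, p s' c

/-- The norm of the canonical form is at most `r`: in homogeneous coordinates the wedge product of all
`dX_c` is `∑_s (h_s / q)` times the wedge product of the `dlog p_{s,c}`, one for each coordinate `c`,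
with `w(h_s / q) ≤ r` and nonzero multihomogeneous forms `p_{s,c}`. -/
def CanonicalNormLE {k : Type} [Field k] {m : ℕ} {N : Fin m → ℕ}
    (w : Valuation (MvPolynomial (Coord N) k) NNReal) (r : NNReal) : Prop :=
  ∃ (T : ℕ) (e : Fin m → ℕ) (q : MvPolynomial (Coord N) k)
    (h : Fin T → MvPolynomial (Coord N) k) (p : Fin T → Coord N → MvPolynomial (Coord N) k),
    IsMultihomogeneous e q ∧ q ≠ 0 ∧
    (∀ s, IsMultihomogeneous (fun t => e t + (N t + 1)) (h s) ∧ w (h s) ≤ r * w q) ∧
    (∀ s c, (∃ d, IsMultihomogeneous d (p s c)) ∧ p s c ≠ 0) ∧ IsLogExpression q h p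

/-- The form `u` is a section of (a twist of) the multiplier ideal `I⁻` of the ideal `I` generated by
the `F j`: for all valuations `w`, `w(u) exp (-A(w)) ≤ w(I) = max_j w(F_j)`. -/
def InMultiplierIdeal {k : Type} [Field k] {m : ℕ} {N : Fin m → ℕ} (I : Forms k N)
    (u : MvPolynomial (Coord N) k) : Prop :=
  ∀ w : Valuation (MvPolynomial (Coord N) k) NNReal, IsPlace w →
    ∃ r : NNReal, (∀ r' : NNReal, r < r' → CanonicalNormLE w r') ∧ w u * r ≤ ⨆ j, w (I.form j)

/-- The forms `I` are products of the linear forms `L t l`, not all zero. -/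
def IsArrangementIdeal {k : Type} [Field k] {m : ℕ} {N : Fin m → ℕ}
    {ι : Fin m → Type} (L : ∀ t, ι t → Fin (N t + 1) → k) (I : Forms k N) : Prop :=
  (∀ j, IsProduct L (I.deg j) (I.form j)) ∧ ∃ j, I.form j ≠ 0

/-- The `J` are multihomogeneous forms in the multiplier ideal `I⁻`. -/
def IsFamilyInMultiplierIdeal {k : Type} [Field k] {m : ℕ} {N : Fin m → ℕ} (I J : Forms k N) :
    Prop :=
  ∀ i, IsMultihomogeneous (J.deg i) (J.form i) ∧ InMultiplierIdeal I (J.form i)

/-- The point `x` over `E` is not on the hyperplanes `Z t` over `k` of the factors. -/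
def IsOff {k E : Type} [Field k] [Field E] [Algebra k E] {m : ℕ} {N : Fin m → ℕ}
    (Z : ∀ t, Finset (Fin (N t + 1) → k)) (x : Point E N) : Prop :=
  ∀ t, ∀ z ∈ Z t, ∑ j, algebraMap k E (z j) * x t j ≠ 0

/-- **Vojta's conjecture with multiplier ideals for arrangements in products of projective spaces, at
any two places of any field.** Let `k` be a number field. Given finitely many linear forms `L t l ≠ 0`
over `k` in the coordinates of the factors of `X = ℙ^(N_1) × … × ℙ^(N_m)` there are finite sets `Z t`
of hyperplanes over `k` of the factors such that: for all nonzero ideal sheaves on `X` generated by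
forms `I` which are products of the `L t l` and all families of forms `J` in `I⁻` there is a constant
`C` such that for all number fields `E` over `k`, all finite sets `W` of places of `E`, and all points
`x` of `X` over `E` off the `Z t` which are not common zeros of the forms `J`
`h_K(x) + ∑_{w ∈ W} λ_I(x, w) - ∑_{w ∈ W} λ_J(x, w) ≤ C` if `W` has `s ≤ 2` elements, and in general
it is `≤ max(0, s/2 - 1) (- h_K(x)) + max(1, s/2) C`, `h_K(x) = -∑ (N t + 1) h(x t)`; moreover `x` is
not a zero of `I`, so `λ_I(x, w)` is finite. (If the `J` generate `I⁻`, then `λ_J = λ_{I⁻}`.) -/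
theorem result (k : Type) [Field k] [NumberField k]
    (m : ℕ) (N : Fin m → ℕ) (ι : Fin m → Type) [∀ t, Finite (ι t)]
    (L : ∀ t, ι t → Fin (N t + 1) → k) (hL : ∀ t l, L t l ≠ 0) :
    ∃ Z : ∀ t, Finset (Fin (N t + 1) → k), (∀ t, ∀ z ∈ Z t, z ≠ 0) ∧
      ∀ I J : Forms k N, IsArrangementIdeal L I → IsFamilyInMultiplierIdeal I J →
      ∃ C : ℝ, ∀ (E : Type) [Field E] [NumberField E] [Algebra k E] (W : Finset (Place E))
        (x : Point E N), (∀ t, x t ≠ 0) → IsOff Z x → (∃ i, value x (J.form i) ≠ 0) →
        (∃ j, value x (I.form j) ≠ 0) ∧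
        (W.card ≤ 2 → canonicalHeight x + ∑ w ∈ W, localHeight w I x -
          ∑ w ∈ W, localHeight w J x ≤ C) ∧
        canonicalHeight x + ∑ w ∈ W, localHeight w I x - ∑ w ∈ W, localHeight w J x ≤
          max 0 ((W.card : ℝ) / 2 - 1) * -canonicalHeight x + max 1 ((W.card : ℝ) / 2) * C := by
  classical
  have := fun t => Fintype.ofFinite (ι t)
  set en := fun t => Fintype.equivFin (ι t) with hen
  obtain ⟨Z, hZ, hmain⟩ := Pool.Agent.V5helper83.PS.fewP (k := k)
    (n := fun t => N t + 1) (fun t => Nat.succ_le_succ (Nat.zero_le _))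
    (fun t => Fintype.card (ι t)) (fun t l => L t ((en t).symm l)) (fun t l => hL t _)
  refine ⟨fun t => Z t ∪ Finset.univ.image (L t), fun t z hz => ?_, ?_⟩
  · rcases Finset.mem_union.1 hz with hz | hz
    · exact hZ t z hz
    · obtain ⟨l, -, rfl⟩ := Finset.mem_image.1 hz
      exact hL t l
  rintro ⟨a, d, F⟩ ⟨b, e, u⟩ ⟨hF, hne⟩ hu
  change ∀ j, IsProduct L (d j) (F j) at hF
  change ∃ j, F j ≠ 0 at hne
  change ∀ i, IsMultihomogeneous (e i) (u i) ∧ InMultiplierIdeal ⟨a, d, F⟩ (u i) at hu
  choose c r σ hd hfac using hF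
  have hm : ∀ i, Pool.Agent.V5helper83.PS.InMult F (u i) := by
    intro i w hw
    obtain ⟨ρ, hρ, hle⟩ := (hu i).2 w hw
    refine ⟨ρ, fun r' hr' => ?_, hle⟩
    obtain ⟨T, e', q, h, p, -, hq0, hh, hp, hid⟩ := hρ r' hr'
    exact ⟨T, q, h, p, hq0, fun s => (hh s).2, fun s c => (hp s c).2, hid⟩
  obtain ⟨C, hC0, hC⟩ := hmain a F c r (fun j s => ⟨(σ j s).1, en _ (σ j s).2⟩) (fun j => by
    rw [hfac]
    congr 1
    refine Finset.prod_congr rfl fun s _ => ?_
    simp only [Equiv.symm_apply_apply]
    rfl) hne b u e (fun i => (hu i).1) hm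
  refine ⟨C / Module.finrank ℚ k, fun E _ _ _ W x hx hZx hux => ⟨?_, ?_⟩⟩
  · obtain ⟨j, hj⟩ := hne
    refine ⟨j, fun h0 => ?_⟩
    have hc : c j ≠ 0 := fun hc => hj (by rw [hfac, hc, C_0, zero_mul])
    have e2 : value x (F j) = 0 := h0
    unfold value at e2
    rw [hfac, map_mul, aeval_C, map_prod] at e2
    refine mul_ne_zero ((map_ne_zero _).2 hc) (Finset.prod_ne_zero_iff.2 fun s _ => ?_) e2
    rw [map_sum]
    simp only [map_mul, aeval_C, aeval_X]
    exact hZx _ _ (Finset.mem_union_right _ (Finset.mem_image_of_mem _ (Finset.mem_univ _)))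
  have h1 := hC E W x hx (fun t z hz => hZx t z (Finset.mem_union_left _ hz)) hux
  have hfd : FiniteDimensional k E := Module.Finite.of_restrictScalars_finite ℚ k E
  have hdegk : (0 : ℝ) < Module.finrank ℚ k := by exact_mod_cast Module.finrank_pos
  have hdegE : (0 : ℝ) < Module.finrank ℚ E := by exact_mod_cast Module.finrank_pos
  have hdegkE : (0 : ℝ) < Module.finrank k E := by exact_mod_cast Module.finrank_pos
  have hdeg : (Module.finrank ℚ E : ℝ) = Module.finrank k E * Module.finrank ℚ k := by
    rw [← Nat.cast_mul, mul_comm, Module.finrank_mul_finrank]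
  have hav : ∀ v : Place E, absv v = Pool.Agent.W180.OP.av v := by
    intro v
    rcases v with v | v
    · rfl
    · rfl
  have hwt : ∀ v : Place E, weight v = Pool.Agent.W180.OP.wt v := by
    intro v
    rcases v with v | v
    · rfl
    · rfl
  have hdd : ∀ (v : Place E) (j : Fin a), ∏ t, (⨆ i, absv v (x t i)) ^ d j t =
      ∏ s, Pool.Agent.W180.OP.nrm (Pool.Agent.W180.OP.av v) (x (σ j s).1) := by
    intro v j
    rw [← Finset.prod_fiberwise (s := Finset.univ) (g := fun s => (σ j s).1)
      (f := fun s => Pool.Agent.W180.OP.nrm (Pool.Agent.W180.OP.av v) (x (σ j s).1))]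
    refine Finset.prod_congr rfl fun t _ => ?_
    rw [Finset.prod_congr rfl (g := fun _ =>
      Pool.Agent.W180.OP.nrm (Pool.Agent.W180.OP.av v) (x t)) fun s hs => by
        rw [(Finset.mem_filter.1 hs).2], Finset.prod_const, ← hd j t, hav]
    rfl
  have h2 : ∑ v ∈ W, localHeight v ⟨a, d, F⟩ x - ∑ v ∈ W, localHeight v ⟨b, e, u⟩ x =
      (∑ v ∈ W, Pool.Agent.W180.OP.wt v *
        (Pool.Agent.V5helper83.PS.lamE (Pool.Agent.W180.OP.av v)
          (fun j x => ∏ s, Pool.Agent.W180.OP.nrm (Pool.Agent.W180.OP.av v) (x (σ j s).1)) F x -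
        Pool.Agent.V5helper83.PS.lamE (Pool.Agent.W180.OP.av v)
          (fun i x => ∏ t, Pool.Agent.W180.OP.nrm (Pool.Agent.W180.OP.av v) (x t) ^ e i t) u x)) /
      Module.finrank ℚ E := by
    rw [← Finset.sum_sub_distrib, Finset.sum_div]
    refine Finset.sum_congr rfl fun v _ => ?_
    unfold localHeight value Pool.Agent.V5helper83.PS.lamE
    simp only [hdd, hwt]
    simp only [hav]
    rw [← sub_div, ← mul_sub]
    rfl
  set mx : ℝ := max 1 ((W.card : ℝ) / 2) with hmx
  set HK : ℝ := ∑ t, ((N t : ℝ) + 1) * height (x t) with hHK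
  have hcan : canonicalHeight x = -HK := rfl
  have h4 : HK = (∑ t, (((N t + 1 : ℕ) : ℝ)) * Height.logHeight (x t)) / Module.finrank ℚ E := by
    rw [hHK, Finset.sum_div]
    refine Finset.sum_congr rfl fun t _ => ?_
    push_cast
    exact mul_div_assoc' _ _ _
  have h5 : ∑ v ∈ W, localHeight v ⟨a, d, F⟩ x - ∑ v ∈ W, localHeight v ⟨b, e, u⟩ x ≤
      mx * (HK + C / Module.finrank ℚ k) := by
    rw [h2, h4, div_le_iff₀ hdegE]
    refine h1.trans (le_of_eq ?_)
    rw [hdeg]
    field_simp
  have h6 : mx = 1 + max 0 ((W.card : ℝ) / 2 - 1) := by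
    rw [hmx, ← max_add_add_left]
    congr 1 <;> ring
  have h7 : canonicalHeight x + ∑ v ∈ W, localHeight v ⟨a, d, F⟩ x -
      ∑ v ∈ W, localHeight v ⟨b, e, u⟩ x ≤
      max 0 ((W.card : ℝ) / 2 - 1) * -canonicalHeight x + mx * (C / Module.finrank ℚ k) := by
    have h8 : mx * (HK + C / Module.finrank ℚ k) = HK +
        max 0 ((W.card : ℝ) / 2 - 1) * HK + mx * (C / Module.finrank ℚ k) := by
      rw [h6]; ring
    rw [h8] at h5
    rw [hcan, neg_neg]
    linarith
  refine ⟨fun hs => ?_, h7⟩
  have h8 : (W.card : ℝ) / 2 - 1 ≤ 0 := by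
    have : (W.card : ℝ) ≤ 2 := by exact_mod_cast hs
    linarith
  have h9 : mx = 1 := by
    rw [h6, max_eq_left h8, add_zero]
  rw [h9, max_eq_left h8] at h7
  linarith

end Pool.Agent.Results.MP_8865d3_nt.TwoPlacesOnProducts
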